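import Pool.Agent.Q188.LM.Mat
import Pool.Agent.H338R2.AS.T6

/-!
# Lehmer's problem for matrices with few monomials
-/

set_option autoImplicit false

namespace Pool.Agent.Q188.LM

open Polynomial Matrix Pool.Agent.H338R2.AS

/-- the bound -/
noncomputable def bd (c : ℝ) (k : ℕ) : ℝ :=
  c / ((2 * 3 ^ k : ℝ) ^ 6 * (Real.log (2 * (2 * 3 ^ k))) ^ 3)

theorem bd_anti {c : ℝ} (hc : 0 < c) {s : ℝ} {k : ℕ} (h1 : 1 ≤ s) (h : s ≤ 2 * 3 ^ k) :
    bd c k ≤ c / (s ^ 6 * (Real.log (2 * s)) ^ 3) := by
  have hlog : 0 < Real.log (2 * s) := Real.log_pos (by linarith)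
  have hlog2 : Real.log (2 * s) ≤ Real.log (2 * (2 * 3 ^ k)) :=
    Real.log_le_log (by linarith) (by linarith)
  unfold bd
  apply div_le_div_of_nonneg_left hc.le (by positivity)
  have h3 : s ^ 6 ≤ (2 * 3 ^ k : ℝ) ^ 6 := pow_le_pow_left₀ (by linarith) h 6
  have h4 : Real.log (2 * s) ^ 3 ≤ Real.log (2 * (2 * 3 ^ k)) ^ 3 :=
    pow_le_pow_left₀ hlog.le hlog2 3
  exact mul_le_mul h3 h4 (by positivity) (by positivity)

theorem bd_mono {c : ℝ} (hc : 0 < c) {k l : ℕ} (h : l ≤ k) : bd c k ≤ bd c l := by
  have h1 : (1 : ℝ) ≤ 3 ^ l := one_le_pow₀ (by norm_num)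
  have h2 : (3 : ℝ) ^ l ≤ 3 ^ k := pow_le_pow_right₀ (by norm_num) h
  exact bd_anti hc (s := 2 * 3 ^ l) (by linarith) (by linarith)

theorem lm_mul_of_ne {F G : ℤ[X]} (h : F * G ≠ 0) : lm (F * G) = lm F + lm G := by
  unfold lm
  rw [Polynomial.map_mul]
  apply logMahlerMeasure_mul_eq_add_logMahlerMeasure
  rw [← Polynomial.map_mul]
  exact (Polynomial.map_ne_zero_iff (RingHom.injective_int _)).mpr h

theorem lm_zero' : lm 0 = 0 := by
  unfold lm
  rw [Polynomial.map_zero, logMahlerMeasure_zero]

theorem lm_X_pow (a : ℕ) : lm (X ^ a) = 0 := by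
  induction a with
  | zero =>
    unfold lm
    rw [pow_zero, Polynomial.map_one]
    exact logMahlerMeasure_one
  | succ a ih =>
    rw [pow_succ, lm_mul_of_ne (mul_ne_zero (pow_ne_zero _ X_ne_zero) X_ne_zero), ih, zero_add]
    unfold lm
    rw [Polynomial.map_X, logMahlerMeasure_X]

theorem lm_X_pow_mul (a : ℕ) (F : ℤ[X]) : lm (X ^ a * F) = lm F := by
  by_cases h : F = 0
  · rw [h, mul_zero]
  · rw [lm_mul_of_ne (mul_ne_zero (pow_ne_zero _ X_ne_zero) h), lm_X_pow, zero_add]

theorem lm_split {F G : ℤ[X]} (h : 0 < lm (F * G)) :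
    (0 < lm F ∧ lm F ≤ lm (F * G)) ∨ (0 < lm G ∧ lm G ≤ lm (F * G)) := by
  have h0 : F * G ≠ 0 := by
    intro h'
    rw [h', lm_zero'] at h
    exact lt_irrefl _ h
  have h1 := lm_mul_of_ne h0
  have h2 := lm_nonneg F
  have h3 := lm_nonneg G
  rcases h2.eq_or_lt with h4 | h4
  · right
    constructor
    · linarith
    · linarith
  · left
    exact ⟨h4, by linarith⟩

theorem three_pow (l : ℕ) (h : 2 ≤ l) : 1 + l ≤ 3 ^ (l - 1) := by
  obtain ⟨l, rfl⟩ : ∃ m, l = m + 2 := ⟨l - 2, by omega⟩
  have : l + 2 - 1 = l + 1 := by omega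
  rw [this]
  clear h this
  induction l with
  | zero => norm_num
  | succ l ih =>
    rw [pow_succ]
    omega

theorem supp_X_pow (a : ℕ) : (X ^ a : ℤ[X]).support.card ≤ 1 := by
  have := Polynomial.card_support_C_mul_X_pow_le_one (c := (1 : ℤ)) (n := a)
  rwa [C_1, one_mul] at this

theorem main : ∃ c : ℝ, 0 < c ∧ ∀ (n : ℕ) (ι : Type) [Fintype ι] [DecidableEq ι],
    Fintype.card ι = n → ∀ (m : ι → ℕ) (L : ι → List (Term ι)), 0 < lm (mat m L).det →
      bd c (∑ i, ((L i).length - 1)) ≤ lm (mat m L).det := by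
  classical
  obtain ⟨c, hc, hgap⟩ := monomial_gap
  refine ⟨c, hc, ?_⟩
  have hsmall : ∀ (F : ℤ[X]) (k : ℕ), F.support.card ≤ 2 * 3 ^ k → 0 < lm F → bd c k ≤ lm F := by
    intro F k hF h
    have h0 : F ≠ 0 := by
      rintro rfl
      rw [lm_zero'] at h
      exact lt_irrefl _ h
    have h1 : 1 ≤ F.support.card := Finset.card_pos.mpr (Polynomial.support_nonempty.mpr h0)
    refine (bd_anti hc (s := F.support.card) (by exact_mod_cast h1) ?_).trans (hgap F h)
    exact_mod_cast hF
  intro n
  induction n with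
  | zero =>
    intro ι _ _ hn m L h
    have : IsEmpty ι := Fintype.card_eq_zero_iff.mp hn
    rw [Matrix.det_isEmpty] at h
    have h1 : lm (1 : ℤ[X]) = 0 := by
      have := lm_X_pow 0
      rwa [pow_zero] at this
    rw [h1] at h
    exact absurd h (lt_irrefl _)
  | succ n ih =>
    intro ι _ _ hn m L h
    obtain ⟨k, hk⟩ : ∃ k, k = ∑ i, ((L i).length - 1) := ⟨_, rfl⟩
    rw [← hk]
    have hcard : ∀ v : ι, Fintype.card {i // i ≠ v} = n := by
      intro v
      rw [Fintype.card_subtype_compl, Fintype.card_subtype_eq, hn]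
      omega
    have hsub : ∀ (v : ι) (f : ι → ℕ), ∑ i : {i // i ≠ v}, f i.1 ≤ ∑ i, f i := by
      intro v f
      rw [← Fintype.sum_subtype_add_sum_subtype (fun i => i ≠ v) f]
      exact Nat.le_add_right _ _
    -- removal
    have hrem : ∀ v : ι, (∀ j, j ≠ v → entry (L v) j = 0) →
        (X ^ m v - entry (L v) v).support.card ≤ 2 → bd c k ≤ lm (mat m L).det := by
      intro v hv hs
      rw [det_rm m L v hv] at h ⊢
      rcases lm_split h with ⟨h1, h2⟩ | ⟨h1, h2⟩
      · refine le_trans ?_ h2
        have h3 := ih {i // i ≠ v} (hcard v) _ _ h1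
        refine le_trans (bd_mono hc ?_) h3
        rw [hk]
        refine le_trans ?_ (hsub v fun i => (L i).length - 1)
        refine Finset.sum_le_sum fun i _ => ?_
        have := rm_length v (L i.1)
        omega
      · refine le_trans (hsmall _ k ?_ h1) h2
        have : 1 ≤ 3 ^ k := Nat.one_le_pow _ _ (by norm_num)
        omega
    by_cases hA : ∃ v, (L v).length = 0
    · obtain ⟨v, hv⟩ := hA
      have hv' : L v = [] := List.length_eq_zero_iff.mp hv
      refine hrem v ?_ ?_
      · intro j _
        rw [hv']; rfl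
      · rw [hv', entry_nil, sub_zero]
        exact (supp_X_pow _).trans (by norm_num)
    by_cases hB : ∃ v, (L v).length = 1
    · obtain ⟨v, hv⟩ := hB
      obtain ⟨⟨a, e, w⟩, hv'⟩ := List.length_eq_one_iff.mp hv
      by_cases hw : w = v
      · refine hrem v ?_ ?_
        · intro j hj
          rw [hv', entry_cons, entry_nil, add_zero]
          exact if_neg (fun h' => hj (h'.symm.trans hw))
        · rw [hv', entry_cons, entry_nil, add_zero, if_pos hw]
          have h1 : (X ^ m v - C a * X ^ e : ℤ[X]) = X ^ m v + C (-a) * X ^ e := by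
            rw [C_neg]; ring
          rw [h1]
          refine (Finset.card_le_card Polynomial.support_add).trans
            ((Finset.card_union_le _ _).trans ?_)
          have h2 : (X ^ m v : ℤ[X]).support.card ≤ 1 := supp_X_pow _
          have h3 : (C (-a) * X ^ e : ℤ[X]).support.card ≤ 1 :=
            Polynomial.card_support_C_mul_X_pow_le_one
          omega
      · have h1 := det_mv m L v a e ⟨w, hw⟩ hv'
        have h2 := congrArg lm h1
        rw [lm_X_pow_mul, mul_comm (Matrix.det _) (X ^ m v), lm_X_pow_mul] at h2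
        rw [h2] at h ⊢
        have h3 := ih {i // i ≠ v} (hcard v) _ _ h
        refine le_trans (bd_mono hc ?_) h3
        rw [hk]
        refine le_trans ?_ (hsub v fun i => (L i).length - 1)
        refine Finset.sum_le_sum fun i _ => ?_
        rw [mv_length]
    · push Not at hA hB
      refine hsmall _ k ?_ h
      refine (det_card m L).trans ?_
      have h1 : ∏ i, (1 + (L i).length) ≤ ∏ i, 3 ^ ((L i).length - 1) := by
        refine Finset.prod_le_prod' fun i _ => three_pow _ ?_
        have := hA i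
        have := hB i
        omega
      rw [Finset.prod_pow_eq_pow_sum, ← hk] at h1
      omega

/-! ### matrices of polynomials -/

theorem entry_append {ι : Type} [DecidableEq ι] (l l' : List (Term ι)) (j : ι) :
    entry (l ++ l') j = entry l j + entry l' j := by
  unfold entry
  rw [List.map_append, List.sum_append]

/-- the monomials of a row -/
noncomputable def rowList {ι : Type} (l : List ι) (f : ι → ℤ[X]) : List (Term ι) :=
  l.flatMap fun j => (f j).support.toList.map fun e => (-(f j).coeff e, e, j)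

theorem rowList_length {ι : Type} (l : List ι) (f : ι → ℤ[X]) :
    (rowList l f).length = (l.map fun j => (f j).support.card).sum := by
  induction l with
  | nil => rfl
  | cons a l ih =>
    unfold rowList at ih ⊢
    rw [List.flatMap_cons, List.length_append, ih, List.map_cons, List.sum_cons, List.length_map,
      Finset.length_toList]

theorem entry_block {ι : Type} [DecidableEq ι] (p : ℤ[X]) (a j : ι) :
    entry (p.support.toList.map fun e => ((-(p.coeff e), e, a) : Term ι)) j =
      if a = j then -p else 0 := by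
  unfold entry
  rw [List.map_map]
  by_cases h : a = j
  · rw [if_pos h]
    have h1 : ((fun t : Term ι => if t.2.2 = j then (C t.1 * X ^ t.2.1 : ℤ[X]) else 0) ∘
        fun e => ((-(p.coeff e), e, a) : Term ι)) = fun e => -(C (p.coeff e) * X ^ e) := by
      funext e
      simp only [Function.comp_apply]
      rw [if_pos h, C_neg, neg_mul]
    rw [h1, Finset.sum_map_toList, Finset.sum_neg_distrib]
    congr 1
    exact p.as_sum_support_C_mul_X_pow.symm
  · rw [if_neg h]
    have h1 : ((fun t : Term ι => if t.2.2 = j then (C t.1 * X ^ t.2.1 : ℤ[X]) else 0) ∘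
        fun e => ((-(p.coeff e), e, a) : Term ι)) = fun _ => (0 : ℤ[X]) := by
      funext e
      simp only [Function.comp_apply]
      rw [if_neg h]
    rw [h1, Finset.sum_map_toList, Finset.sum_const_zero]

theorem entry_rowList {ι : Type} [DecidableEq ι] (l : List ι) (hl : l.Nodup) (f : ι → ℤ[X])
    (j : ι) : entry (rowList l f) j = if j ∈ l then -(f j) else 0 := by
  induction l with
  | nil => rfl
  | cons a l ih =>
    have h0 : rowList (a :: l) f =
        ((f a).support.toList.map fun e => ((-(f a).coeff e, e, a) : Term ι)) ++ rowList l f := rfl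
    rw [h0, entry_append, entry_block, ih (List.nodup_cons.mp hl).2]
    have h1 := (List.nodup_cons.mp hl).1
    by_cases h : a = j
    · subst h
      rw [if_pos rfl, if_neg h1, if_pos List.mem_cons_self, add_zero]
    · rw [if_neg h, zero_add]
      by_cases h2 : j ∈ l
      · rw [if_pos h2, if_pos (List.mem_cons_of_mem _ h2)]
      · rw [if_neg h2, if_neg]
        intro h3
        rcases List.mem_cons.mp h3 with h4 | h4
        · exact h h4.symm
        · exact h2 h4

theorem poly_matrix : ∃ c : ℝ, 0 < c ∧ ∀ (n : ℕ) (m : Fin n → ℕ) (g : Matrix (Fin n) (Fin n) ℤ[X]),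
    0 < lm (Matrix.diagonal (fun i => X ^ m i) + g).det →
      bd c (∑ i, ((∑ j, (g i j).support.card) - 1)) ≤
        lm (Matrix.diagonal (fun i => X ^ m i) + g).det := by
  obtain ⟨c, hc, h⟩ := main
  refine ⟨c, hc, fun n m g hg => ?_⟩
  have h1 : Matrix.diagonal (fun i => X ^ m i) + g =
      mat m fun i => rowList (Finset.univ.toList) (g i) := by
    ext1 i j
    simp only [mat, Matrix.of_apply, Matrix.add_apply]
    rw [entry_rowList _ (Finset.nodup_toList _), if_pos (Finset.mem_toList.mpr (Finset.mem_univ j)),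
      sub_neg_eq_add, Matrix.diagonal_apply]
  have h2 := h n (Fin n) (Fintype.card_fin n) m (fun i => rowList (Finset.univ.toList) (g i))
  rw [← h1] at h2
  have h3 : ∑ i, ((rowList (Finset.univ.toList) (g i)).length - 1) =
      ∑ i, ((∑ j, (g i j).support.card) - 1) := by
    refine Finset.sum_congr rfl fun i _ => ?_
    rw [rowList_length, Finset.sum_map_toList]
  rw [h3] at h2
  exact h2 hg

end Pool.Agent.Q188.LM
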