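import Mathlib

/-!
# Matrices with few monomials: elimination of rows
-/

set_option autoImplicit false

namespace Pool.Agent.Q188.LM

open Polynomial Matrix

universe u

/-- a monomial `c X ^ e` in the column `j` -/
abbrev Term (ι : Type u) := ℤ × ℕ × ι

/-- the entry at `j` of a list of monomials -/
noncomputable def entry {ι : Type u} [DecidableEq ι] (l : List (Term ι)) (j : ι) : ℤ[X] :=
  (l.map fun t => if t.2.2 = j then C t.1 * X ^ t.2.1 else 0).sum

/-- the matrix with rows `X ^ m i` (on the diagonal) minus the monomials in `L i` -/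
noncomputable def mat {ι : Type u} [DecidableEq ι] (m : ι → ℕ) (L : ι → List (Term ι)) :
    Matrix ι ι ℤ[X] :=
  Matrix.of fun i j => (if i = j then X ^ m i else 0) - entry (L i) j

section

variable {ι : Type u} [DecidableEq ι]

theorem entry_nil (j : ι) : entry ([] : List (Term ι)) j = 0 := rfl

theorem entry_cons (t : Term ι) (l : List (Term ι)) (j : ι) :
    entry (t :: l) j = (if t.2.2 = j then C t.1 * X ^ t.2.1 else 0) + entry l j := rfl

/-- remove the column `v` -/
def rm (v : ι) (l : List (Term ι)) : List (Term {i // i ≠ v}) :=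
  l.filterMap fun t => if h : t.2.2 = v then none else some (t.1, t.2.1, ⟨t.2.2, h⟩)

theorem rm_length (v : ι) (l : List (Term ι)) : (rm v l).length ≤ l.length :=
  List.length_filterMap_le _ _

theorem entry_rm (v : ι) (l : List (Term ι)) (j : {i // i ≠ v}) :
    entry (rm v l) j = entry l j.1 := by
  induction l with
  | nil => rfl
  | cons t l ih =>
    rw [entry_cons, ← ih]
    by_cases h : t.2.2 = v
    · have h1 : rm v (t :: l) = rm v l := by
        simp [rm, h]
      have h2 : ¬ t.2.2 = j.1 := fun h' => j.2 (h'.symm.trans h)
      rw [h1, if_neg h2, zero_add]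
    · have h1 : rm v (t :: l) = (t.1, t.2.1, ⟨t.2.2, h⟩) :: rm v l := by
        simp [rm, h]
      rw [h1, entry_cons]
      congr 1
      by_cases h2 : t.2.2 = j.1
      · rw [if_pos h2, if_pos (Subtype.ext h2)]
      · rw [if_neg h2, if_neg (fun h' => h2 (congrArg Subtype.val h'))]

/-- replace the terms in the column `v` by terms in the column `w` -/
def mv (v : ι) (k e : ℕ) (c : ℤ) (w : {i // i ≠ v}) (l : List (Term ι)) :
    List (Term {i // i ≠ v}) :=
  l.map fun t => if h : t.2.2 = v then (t.1 * c, t.2.1 + e, w) else (t.1, t.2.1 + k, ⟨t.2.2, h⟩)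

theorem mv_length (v : ι) (k e : ℕ) (c : ℤ) (w : {i // i ≠ v}) (l : List (Term ι)) :
    (mv v k e c w l).length = l.length := List.length_map _

theorem entry_mv (v : ι) (k e : ℕ) (c : ℤ) (w : {i // i ≠ v}) (l : List (Term ι))
    (j : {i // i ≠ v}) : entry (mv v k e c w l) j =
      X ^ k * entry l j.1 + entry l v * (if w = j then C c * X ^ e else 0) := by
  induction l with
  | nil => simp [mv, entry]
  | cons t l ih =>
    have h0 : mv v k e c w (t :: l) =
        (if h : t.2.2 = v then (t.1 * c, t.2.1 + e, w) else (t.1, t.2.1 + k, ⟨t.2.2, h⟩)) ::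
          mv v k e c w l := rfl
    rw [h0, entry_cons, ih, entry_cons, entry_cons]
    by_cases h : t.2.2 = v
    · have h2 : ¬ t.2.2 = j.1 := fun h' => j.2 (h'.symm.trans h)
      rw [dif_pos h, if_pos h, if_neg h2]
      by_cases h3 : w = j
      · simp only [if_pos h3, C_mul, pow_add]
        ring
      · simp only [if_neg h3]
        ring
    · rw [dif_neg h, if_neg h]
      by_cases h2 : t.2.2 = j.1
      · have h3 : (⟨t.2.2, h⟩ : {i // i ≠ v}) = j := Subtype.ext h2
        simp only [if_pos h2, if_pos h3, pow_add]
        ring
      · have h3 : ¬ (⟨t.2.2, h⟩ : {i // i ≠ v}) = j := fun h' => h2 (congrArg Subtype.val h')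
        simp only [if_neg h2, if_neg h3]
        ring

variable [Fintype ι]

theorem det_single (M : Matrix ι ι ℤ[X]) (v : ι) (h : ∀ j, j ≠ v → M v j = 0) :
    M.det = (Matrix.of fun i j : {i // i ≠ v} => M i.1 j.1).det * M v v := by
  have h1 := Matrix.twoBlockTriangular_det M (fun i => i ≠ v) (by
    intro i hi j hj
    have : i = v := not_not.mp hi
    rw [this]
    exact h j hj)
  rw [h1]
  congr 1
  have hu : Unique {a // ¬ a ≠ v} :=
    { default := ⟨v, fun h => h rfl⟩
      uniq := fun a => Subtype.ext (not_not.mp a.2) }
  rw [Matrix.det_unique]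
  have : (default : {a // ¬ a ≠ v}).1 = v := not_not.mp (default : {a // ¬ a ≠ v}).2
  change M (default : {a // ¬ a ≠ v}).1 (default : {a // ¬ a ≠ v}).1 = M v v
  rw [this]

theorem det_single_col (M : Matrix ι ι ℤ[X]) (v : ι) (h : ∀ i, i ≠ v → M i v = 0) :
    M.det = (Matrix.of fun i j : {i // i ≠ v} => M i.1 j.1).det * M v v := by
  rw [← Matrix.det_transpose, det_single Mᵀ v h]
  congr 1
  rw [← Matrix.det_transpose]
  rfl

/-- removal of a row with a monomial or binomial on the diagonal only -/
theorem det_rm (m : ι → ℕ) (L : ι → List (Term ι)) (v : ι) (h : ∀ j, j ≠ v → entry (L v) j = 0) :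
    (mat m L).det = (mat (fun i : {i // i ≠ v} => m i.1) fun i => rm v (L i.1)).det *
      (X ^ m v - entry (L v) v) := by
  rw [det_single (mat m L) v]
  · congr 1
    · congr 1
      ext1 i j
      simp only [mat, Matrix.of_apply, entry_rm]
      congr 1
      by_cases hij : i = j
      · rw [if_pos hij, if_pos (congrArg Subtype.val hij)]
      · rw [if_neg hij, if_neg (fun h' => hij (Subtype.ext h'))]
    · simp [mat]
  · intro j hj
    simp only [mat, Matrix.of_apply]
    rw [if_neg (fun h' => hj h'.symm), h j hj, sub_zero]

/-- contraction of a row with one monomial off the diagonal -/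
theorem det_mv (m : ι → ℕ) (L : ι → List (Term ι)) (v : ι) (c : ℤ) (e : ℕ) (w : {i // i ≠ v})
    (h : L v = [(c, e, w.1)]) :
    X ^ (m v * (Fintype.card {i // i ≠ v})) * (mat m L).det =
      (mat (fun i : {i // i ≠ v} => m i.1 + m v) fun i => mv v (m v) e c w (L i.1)).det *
        X ^ m v := by
  classical
  let P : Matrix ι ι ℤ[X] := Matrix.of fun i j =>
    if i = v then (if j = v then 1 else 0) else (if j = v then entry (L i) v else
      if i = j then X ^ m v else 0)
  have hP : P.det = X ^ (m v * (Fintype.card {i // i ≠ v})) := by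
    rw [det_single P v]
    · have h1 : (Matrix.of fun i j : {i // i ≠ v} => P i.1 j.1) =
          Matrix.diagonal fun _ => X ^ m v := by
        ext1 i j
        simp only [P, Matrix.of_apply, if_neg i.2, if_neg j.2]
        by_cases hij : i = j
        · rw [if_pos (congrArg Subtype.val hij), hij, Matrix.diagonal_apply_eq]
        · rw [if_neg (fun h' => hij (Subtype.ext h')), Matrix.diagonal_apply_ne _ hij]
      rw [h1, Matrix.det_diagonal, Finset.prod_const, Finset.card_univ, ← pow_mul]
      simp [P]
    · intro j hj
      simp [P, hj]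
  have hvv : mat m L v v = X ^ m v := by
    simp only [mat, Matrix.of_apply, if_true, h, entry_cons, entry_nil]
    rw [if_neg w.2]
    ring
  have hvj : ∀ j, j ≠ v → mat m L v j = - (if w.1 = j then C c * X ^ e else 0) := by
    intro j hj
    simp only [mat, Matrix.of_apply, h, entry_cons, entry_nil]
    rw [if_neg (fun h' => hj h'.symm)]
    ring
  have hT : ∀ i j, i ≠ v → (P * mat m L) i j = X ^ m v * mat m L i j + entry (L i) v * mat m L v j := by
    intro i j hi
    rw [Matrix.mul_apply, ← Finset.add_sum_erase _ _ (Finset.mem_univ v),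
      ← Finset.add_sum_erase _ _ (Finset.mem_erase.mpr ⟨hi, Finset.mem_univ i⟩)]
    have h1 : P i v = entry (L i) v := by simp [P, hi]
    have h2 : P i i = X ^ m v := by simp [P, hi]
    rw [h1, h2, Finset.sum_eq_zero]
    · ring
    · intro x hx
      rw [Finset.mem_erase, Finset.mem_erase] at hx
      have : P i x = 0 := by simp [P, hi, hx.2.1, hx.1.symm]
      rw [this, zero_mul]
  have hTv : ∀ j, (P * mat m L) v j = mat m L v j := by
    intro j
    rw [Matrix.mul_apply, Finset.sum_eq_single v]
    · simp [P]
    · intro x _ hx
      simp [P, hx]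
    · intro h'
      exact absurd (Finset.mem_univ v) h'
  rw [← hP, ← Matrix.det_mul, det_single_col (P * mat m L) v]
  · congr 1
    · congr 1
      ext1 i j
      rw [Matrix.of_apply, hT i.1 j.1 i.2, hvj j.1 j.2]
      simp only [mat, Matrix.of_apply, entry_mv]
      by_cases hij : i = j
      · rw [if_pos (congrArg Subtype.val hij), if_pos hij, pow_add]
        by_cases hw : w = j
        · rw [if_pos (congrArg Subtype.val hw), if_pos hw]
          ring
        · rw [if_neg (fun h' => hw (Subtype.ext h')), if_neg hw]
          ring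
      · rw [if_neg (fun h' => hij (Subtype.ext h')), if_neg hij]
        by_cases hw : w = j
        · rw [if_pos (congrArg Subtype.val hw), if_pos hw]
          ring
        · rw [if_neg (fun h' => hw (Subtype.ext h')), if_neg hw]
          ring
    · rw [hTv, hvv]
  · intro i hi
    rw [hT i v hi, hvv]
    have : mat m L i v = - entry (L i) v := by
      simp only [mat, Matrix.of_apply]
      rw [if_neg hi, zero_sub]
    rw [this]
    ring

/-! ### counting the monomials -/

theorem card_support_sum_le {α : Type*} (s : Finset α) (f : α → ℤ[X]) :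
    (∑ i ∈ s, f i).support.card ≤ ∑ i ∈ s, (f i).support.card := by
  classical
  induction s using Finset.induction_on with
  | empty => simp
  | insert a s ha ih =>
    rw [Finset.sum_insert ha, Finset.sum_insert ha]
    exact (Finset.card_le_card Polynomial.support_add).trans
      ((Finset.card_union_le _ _).trans (Nat.add_le_add_left ih _))

theorem det_card (m : ι → ℕ) (L : ι → List (Term ι)) :
    (mat m L).det.support.card ≤ ∏ i, (1 + (L i).length) := by
  classical
  -- the rows
  let co : ∀ i, Option (Fin (L i).length) → ℤ := fun i o => match o with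
    | none => 1
    | some s => - ((L i).get s).1
  let ex : ∀ i, Option (Fin (L i).length) → ℕ := fun i o => match o with
    | none => m i
    | some s => ((L i).get s).2.1
  let cl : ∀ i, Option (Fin (L i).length) → ι := fun i o => match o with
    | none => i
    | some s => ((L i).get s).2.2
  let g : ∀ i, Option (Fin (L i).length) → (ι → ℤ[X]) := fun i o =>
    (C (co i o) * X ^ (ex i o) : ℤ[X]) • (Pi.single (cl i o) 1 : ι → ℤ[X])
  have hrow : ∀ i, mat m L i = ∑ o, g i o := by
    intro i
    ext1 j
    rw [Finset.sum_apply, Fintype.sum_option]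
    simp only [mat, Matrix.of_apply, g, co, ex, cl, Pi.smul_apply, smul_eq_mul, Pi.single_apply]
    rw [sub_eq_add_neg]
    congr 1
    · by_cases h : i = j
      · rw [if_pos h, if_pos h.symm]; simp
      · rw [if_neg h, if_neg (fun h' => h h'.symm)]; simp
    · rw [entry, ← List.sum_ofFn (f := fun s : Fin (L i).length =>
        C (-((L i).get s).1) * X ^ ((L i).get s).2.1 * (if j = ((L i).get s).2.2 then (1 : ℤ[X]) else 0))]
      have h1 : (List.ofFn fun s : Fin (L i).length =>
          C (-((L i).get s).1) * X ^ ((L i).get s).2.1 *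
            (if j = ((L i).get s).2.2 then (1 : ℤ[X]) else 0)) =
          (L i).map fun t => - (if t.2.2 = j then C t.1 * X ^ t.2.1 else 0) := by
        conv_rhs => rw [← List.ofFn_get (L i)]
        rw [List.map_ofFn]
        congr 1
        funext s
        simp only [Function.comp_apply]
        by_cases h : ((L i).get s).2.2 = j
        · rw [if_pos h, if_pos h.symm, C_neg]; ring
        · rw [if_neg h, if_neg (fun h' => h h'.symm)]; simp
      rw [h1]
      generalize L i = l
      induction l with
      | nil => simp
      | cons t l ih =>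
        rw [List.map_cons, List.map_cons, List.sum_cons, List.sum_cons, neg_add, ih]
  have hdet : (mat m L).det = ∑ r : ((i : ι) → Option (Fin (L i).length)),
      Matrix.detRowAlternating (fun i => g i (r i)) := by
    have h1 : (mat m L).det = Matrix.detRowAlternating (fun i => ∑ o, g i o) := by
      change Matrix.detRowAlternating (mat m L) = _
      congr 1
      funext i
      exact hrow i
    rw [h1]
    exact MultilinearMap.map_sum (Matrix.detRowAlternating (R := ℤ[X]) (n := ι)).toMultilinearMap g
  have hone : ∀ r : ((i : ι) → Option (Fin (L i).length)),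
      (Matrix.detRowAlternating (fun i => g i (r i)) : ℤ[X]).support.card ≤ 1 := by
    intro r
    have h1 : (Matrix.detRowAlternating (fun i => g i (r i)) : ℤ[X]) =
        (∏ i, (C (co i (r i)) * X ^ (ex i (r i)) : ℤ[X])) •
          Matrix.detRowAlternating (fun i => (Pi.single (cl i (r i)) 1 : ι → ℤ[X])) :=
      MultilinearMap.map_smul_univ
        (Matrix.detRowAlternating (R := ℤ[X]) (n := ι)).toMultilinearMap _ _
    have h2 : (Matrix.detRowAlternating (fun i => (Pi.single (cl i (r i)) 1 : ι → ℤ[X])) : ℤ[X]) =
        C ((Matrix.of fun i => (Pi.single (cl i (r i)) 1 : ι → ℤ)).det) := by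
      rw [RingHom.map_det]
      change Matrix.detRowAlternating _ = Matrix.detRowAlternating _
      congr 1
      funext i j
      simp only [RingHom.mapMatrix_apply, Matrix.map_apply, Matrix.of_apply, Pi.single_apply]
      by_cases h : j = cl i (r i)
      · rw [if_pos h, if_pos h, C_1]
      · rw [if_neg h, if_neg h, C_0]
    rw [h1, h2, Finset.prod_mul_distrib, Finset.prod_pow_eq_pow_sum, ← map_prod, smul_eq_mul,
      mul_comm, ← mul_assoc, ← C_mul]
    exact Polynomial.card_support_C_mul_X_pow_le_one
  rw [hdet]
  refine (card_support_sum_le _ _).trans ((Finset.sum_le_sum fun r _ => hone r).trans ?_)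
  rw [Finset.sum_const, smul_eq_mul, mul_one, Finset.card_univ, Fintype.card_pi]
  refine Finset.prod_le_prod' fun i _ => ?_
  rw [Fintype.card_option, Fintype.card_fin, add_comm]

end

end Pool.Agent.Q188.LM
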